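import Mathlib
import Pool.Agent.H892.KT.Stm

/-!
# Project KT (helper892), task ATLAS: the local atlas
-/

set_option autoImplicit false

open Filter Topology Set
open scoped Manifold ContDiff
open Pool.Agent.H892.KT

namespace Pool.Agent.H106.KT

theorem ratAt_of_birAt {τ σ : ℂ × ℂ → ℂ × ℂ} {p : ℂ × ℂ} (h : BirAt τ p)
    (hs : ∀ᶠ q in 𝓝 p, σ q = τ q) : RatAt σ p := by
  obtain ⟨e, -, he, ⟨P₁, Q₁, P₂, Q₂, h1, h2, h3⟩, -⟩ := h
  refine ⟨P₁, Q₁, P₂, Q₂, h1, h2, ?_⟩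
  filter_upwards [he, h3, hs] with q ha hb hc
  rw [hc, ha]
  exact hb

theorem bB_fst_zero {z : ℂ × ℂ} (hz : z.1 = 0) : bB z = 0 := by
  unfold bB
  rw [hz, zero_mul]
  rfl

theorem dom2_subset {n : ℕ} (K : KatoData n) (D : ConjData K) {r : Pt n}
    (hr : r ∈ dom2 D.V) : r ∈ K.dom := by
  cases r with
  | P i y => exact ⟨D.subU i hr.1, hr.2⟩
  | R i z =>
    have hz : z.1 = 0 := hr
    change bB z ∈ K.U i
    rw [bB_fst_zero hz]
    exact K.zero_mem i

/-- the filter of the points near `r` is mapped to the neighbourhoods of the image -/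
theorem map_nh {n : ℕ} {K : KatoData n} {X : Type} [TopologicalSpace X]
    [ChartedSpace (ℂ × ℂ) X] {π : Pt n → X} (hπ : Presents K X π) {r : Pt n}
    (hr : r ∈ K.dom) : Filter.map π (nh r) = 𝓝 (π r) := by
  cases r with
  | P i y =>
    have h := (hπ.locP i).isLocalHomeomorphOn
    have hy : y ∈ K.U i \ {0} := ⟨hr.1, hr.2⟩
    have := h.map_nhds_eq hy
    unfold nh
    rw [Filter.map_map]
    exact this
  | R i z =>
    have h := (hπ.locR i).isLocalHomeomorphOn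
    have hz : z ∈ {z | bB z ∈ K.U i} := hr
    have := h.map_nhds_eq hz
    unfold nh
    rw [Filter.map_map]
    exact this

theorem nh_self {n : ℕ} {r : Pt n} {p : Pt n → Prop} (h : ∀ᶠ r1 in nh r, p r1) : p r := by
  cases r with
  | P i y =>
    unfold nh at h
    rw [Filter.eventually_map] at h
    exact h.self_of_nhds
  | R i z =>
    unfold nh at h
    rw [Filter.eventually_map] at h
    exact h.self_of_nhds

theorem exists_delta {n : ℕ} [NeZero n] (V : ZMod n → Set (ℂ × ℂ)) (ho : ∀ i, IsOpen (V i))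
    (h0 : ∀ i, (0 : ℂ × ℂ) ∈ V i) : ∃ δ : ℝ, 0 < δ ∧ ∀ i, Metric.ball 0 δ ⊆ V i := by
  have h : ∀ i, ∃ ε : ℝ, 0 < ε ∧ Metric.ball 0 ε ⊆ V i := fun i => by
    obtain ⟨ε, hε, hb⟩ := Metric.isOpen_iff.1 (ho i) 0 (h0 i)
    exact ⟨ε, hε, hb⟩
  choose ε hε hb using h
  have hall : ∀ᶠ δ : ℝ in 𝓝[>] 0, ∀ i, δ < ε i :=
    Filter.eventually_all.2 fun i => nhdsWithin_le_nhds (gt_mem_nhds (hε i))
  have hpos : ∀ᶠ δ : ℝ in 𝓝[>] 0, 0 < δ := eventually_mem_nhdsWithin
  obtain ⟨δ, hδ, hδ0⟩ := (hall.and hpos).exists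
  exact ⟨δ, hδ0, fun i => (Metric.ball_subset_ball (hδ i).le).trans (hb i)⟩

theorem t_ATLAS (h1 : S_RED1) (h2 : S_RED2) (h3 : S_CHART) (h4 : S_TRANS) (h5 : S_BIRCOMP)
    (h6 : S_BIRINV) : S_ATLAS := by
  intro n _ K D X _ _ _ hX
  obtain ⟨π, hπ⟩ := hX
  obtain ⟨δ, hδ, hball⟩ := exists_delta D.V D.isOpen_V D.zero_mem
  refine ⟨{e | e ∈ IsManifold.maximalAtlas 𝓘(ℂ, ℂ × ℂ) ω X ∧ ∀ z ∈ e.source, Good D π e z},
    fun e he => he.1, ?_, ?_⟩
  · intro x
    obtain ⟨r, hr, rfl⟩ := hπ.surj x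
    obtain ⟨r', hr', hE⟩ := h1 n K D.V δ hδ hball D.subU r hr
    have hx : π r = π r' := (hπ.fibre r hr r' (dom2_subset K D hr')).2 hE
    obtain ⟨e, he, hs, -, hG⟩ := h3 n K D X π hπ r' hr'
    refine ⟨e, ⟨he, hG⟩, ?_⟩
    rw [hx]
    exact hs
  · rintro e ⟨-, hGe⟩ e' ⟨-, hGe'⟩ p hp
    have hpt : p ∈ e.target := by
      have := hp.1
      exact this
    have hze' : e.symm p ∈ e'.source := hp.2
    have hze : e.symm p ∈ e.source := e.map_target hpt
    have hezp : e (e.symm p) = p := e.right_inv hpt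
    obtain ⟨r, hr, hrz, ρ, hρ, hρe⟩ := hGe _ hze
    obtain ⟨r', hr', hrz', ρ', hρ', hρe'⟩ := hGe' _ hze'
    have hrd := dom2_subset K D hr
    have hrd' := dom2_subset K D hr'
    have hE : Relation.EqvGen (Glue2 K D.V) r r' :=
      h2 n K D.V δ hδ hball D.subU D.maps r hr r' hr'
        ((hπ.fibre r hrd r' hrd').1 (hrz.trans hrz'.symm))
    obtain ⟨c, hcA, hcs, hc, -⟩ := h3 n K D X π hπ r hr
    obtain ⟨c', hcA', hcs', hc', -⟩ := h3 n K D X π hπ r' hr'
    obtain ⟨θ, hθ, hθc⟩ := h4 n K D X π hπ r hr r' hE c c' hc hc'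
    -- the maps near `z`
    have hmap := map_nh hπ hrd
    have hmap' := map_nh hπ hrd'
    have E1 : ∀ᶠ x in 𝓝 (e.symm p), e x = ρ (c x) := by
      rw [← hrz, ← hmap, Filter.eventually_map]
      filter_upwards [hρe, hc] with r1 ha hb
      rw [ha, hb]
    have E2 : ∀ᶠ x in 𝓝 (e.symm p), e' x = ρ' (c' x) := by
      rw [← hrz', ← hmap', Filter.eventually_map]
      filter_upwards [hρe', hc'] with r1 ha hb
      rw [ha, hb]
    have E3 : ∀ᶠ x in 𝓝 (e.symm p), c' x = θ (c x) := by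
      rw [← hrz]
      exact hθc
    have hcz : c (e.symm p) = D.ch r := by
      rw [← hrz]
      exact nh_self (p := fun r1 => c (π r1) = D.ch r1) hc
    have hcz' : c' (e.symm p) = D.ch r' := by
      rw [← hrz']
      exact nh_self (p := fun r1 => c' (π r1) = D.ch r1) hc'
    have hρp : ρ (D.ch r) = p := by
      rw [← hcz, ← E1.self_of_nhds, hezp]
    have hθr : θ (D.ch r) = D.ch r' := by
      rw [← hcz, ← E3.self_of_nhds, hcz']
    obtain ⟨τ', hτ', hτp, hτq, -⟩ := h6 ρ (D.ch r) hρ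
    rw [hρp] at hτ' hτp
    have hccont : ContinuousAt c (e.symm p) := by
      have : e.symm p ∈ c.source := by
        rw [← hrz]
        exact hcs
      exact c.continuousAt this
    have E4 : ∀ᶠ x in 𝓝 (e.symm p), τ' (ρ (c x)) = c x := by
      have : Tendsto c (𝓝 (e.symm p)) (𝓝 (D.ch r)) := by
        rw [← hcz]
        exact hccont
      exact this.eventually hτq
    have E5 : ∀ᶠ x in 𝓝 (e.symm p), e' x = ρ' (θ (τ' (e x))) := by
      filter_upwards [E1, E2, E3, E4] with x a1 a2 a3 a4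
      rw [a2, a3, a1, a4]
    have hcomp1 : BirAt (fun q => θ (τ' q)) p := by
      refine h5 τ' θ p hτ' ?_
      rw [hτp]
      exact hθ
    have hcomp2 : BirAt (fun q => ρ' (θ (τ' q))) p := by
      refine h5 (fun q => θ (τ' q)) ρ' p hcomp1 ?_
      rw [hτp, hθr]
      exact hρ'
    refine ratAt_of_birAt hcomp2 ?_
    have hct : Tendsto e.symm (𝓝 p) (𝓝 (e.symm p)) := e.continuousAt_symm hpt
    filter_upwards [hct.eventually E5, e.open_target.mem_nhds hpt] with q hq hqt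
    change e' (e.symm q) = ρ' (θ (τ' q))
    rw [hq, e.right_inv hqt]

end Pool.Agent.H106.KT
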